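import Pool.Agent.H28.MCL.Targets

/-!
Module TLZ of the project MCL: the local gap for products of values of the Liouville function at
integer shifts.
-/

set_option autoImplicit false

open Finset Filter Topology

namespace Pool.Agent.H1.MCL

open Pool.Agent.H24.MR (lam)
open Pool.Agent.H28.MCL

/-- the windows of `gs S` from `A` on are translated windows of a product over natural shifts -/
theorem ws_shift (S : Finset ℤ) (f : ℕ → ℝ) (Q a c n h : ℕ)
    (hf : ∀ u : ℕ, gs S (u + Q * a) = f u) (hn : Q * a ≤ n) :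
    ws (gs S) Q c n h = ws f Q c (n - Q * a) h := by
  unfold ws
  symm
  apply Finset.sum_bij (fun (u : ℕ) (_ : _) => u + Q * a)
  · intro u hu
    rw [Finset.mem_filter, Finset.mem_Ioc] at hu ⊢
    refine ⟨⟨by omega, by omega⟩, ?_⟩
    have h1 : u + Q * a ≡ u [MOD Q] := by
      unfold Nat.ModEq
      simp
    exact h1.trans hu.2
  · intro u _ v _ huv
    have : u + Q * a = v + Q * a := huv
    omega
  · intro m hm
    rw [Finset.mem_filter, Finset.mem_Ioc] at hm
    refine ⟨m - Q * a, ?_, by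
      show m - Q * a + Q * a = m
      omega⟩
    rw [Finset.mem_filter, Finset.mem_Ioc]
    refine ⟨⟨by omega, by omega⟩, ?_⟩
    have h1 : (m - Q * a) + Q * a ≡ m - Q * a [MOD Q] := by
      unfold Nat.ModEq
      simp
    have h2 : (m - Q * a) + Q * a = m := by omega
    rw [h2] at h1
    exact h1.symm.trans hm.2
  · intro u _
    exact (hf u).symm

theorem ind_nonneg (P : ℕ → Prop) (n : ℕ) : 0 ≤ ind P n := by
  unfold ind
  split_ifs <;> norm_num

theorem ind_le_one (P : ℕ → Prop) (n : ℕ) : ind P n ≤ 1 := by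
  unfold ind
  split_ifs <;> norm_num

theorem ind_mono (P P' : ℕ → Prop) (n m : ℕ) (h : P n → P' m) : ind P n ≤ ind P' m := by
  unfold ind
  by_cases h1 : P n
  · rw [if_pos h1, if_pos (h h1)]
  · rw [if_neg h1]
    split_ifs <;> norm_num

/-- translation of a bound on long windows -/
theorem bd_shift (P P' : ℕ → Prop) (A : ℕ) (δ : ℝ) (hδ : 0 < δ)
    (hP : ∀ n, A ≤ n → P n → P' (n - A)) (h : Bd (ind P') (δ / 2)) : Bd (ind P) δ := by
  obtain ⟨K', hK'⟩ := h
  obtain ⟨K₁, hK₁⟩ := exists_nat_ge (Real.exp (2 * A / δ + Real.log ((A : ℝ) + 1)))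
  refine ⟨max K' K₁, ?_⟩
  intro x y hx hxy
  have hK'x : K' * x ≤ y := le_trans (Nat.mul_le_mul_right x (le_max_left _ _)) hxy
  have hK₁x : K₁ * x ≤ y := le_trans (Nat.mul_le_mul_right x (le_max_right _ _)) hxy
  have hxR : (0 : ℝ) < x := by exact_mod_cast hx
  have hK₁pos : (0 : ℝ) < K₁ := lt_of_lt_of_le (Real.exp_pos _) hK₁
  have hyx : (K₁ : ℝ) ≤ (y : ℝ) / x := by
    rw [le_div_iff₀ hxR]
    exact_mod_cast hK₁x
  have hyxpos : (0 : ℝ) < (y : ℝ) / x := lt_of_lt_of_le hK₁pos hyx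
  have hlog : 2 * A / δ + Real.log ((A : ℝ) + 1) ≤ Real.log ((y : ℝ) / x) := by
    rw [Real.le_log_iff_exp_le hyxpos]
    exact le_trans hK₁ hyx
  -- the starting point of the translated window
  obtain ⟨x', hx'⟩ : ∃ x' : ℕ, x' = max (x - A) 1 := ⟨_, rfl⟩
  have hx'1 : 1 ≤ x' := by
    rw [hx']
    exact le_max_right _ _
  have hx'2 : x - A ≤ x' := by
    rw [hx']
    exact le_max_left _ _
  have hx'3 : x' ≤ x := by
    rw [hx']
    exact max_le (Nat.sub_le _ _) hx
  have hx'4 : x ≤ (A + 1) * x' := by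
    have h1 : x ≤ x' + A := by omega
    have h2 : A * 1 ≤ A * x' := Nat.mul_le_mul_left A hx'1
    calc x ≤ x' + A := h1
      _ ≤ x' + A * x' := by omega
      _ = (A + 1) * x' := by ring
  have hx'R : (0 : ℝ) < x' := by exact_mod_cast hx'1
  have hmain := hK' x' y hx'1 (le_trans (Nat.mul_le_mul_left K' hx'3) hK'x)
  have hypos : (0 : ℝ) < y := by
    by_contra hcon
    have h0 : (y : ℝ) ≤ 0 := not_lt.mp hcon
    have : (y : ℝ) / x ≤ 0 := div_nonpos_of_nonpos_of_nonneg h0 hxR.le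
    linarith
  have hA1 : (0 : ℝ) < (A : ℝ) + 1 := by positivity
  have hlog2 : Real.log ((y : ℝ) / x') ≤ Real.log ((y : ℝ) / x) + Real.log ((A : ℝ) + 1) := by
    rw [← Real.log_mul hyxpos.ne' hA1.ne']
    apply Real.log_le_log (div_pos hypos hx'R)
    rw [div_mul_eq_mul_div, div_le_div_iff₀ hx'R hxR, mul_assoc]
    apply mul_le_mul_of_nonneg_left _ hypos.le
    exact_mod_cast hx'4
  -- splitting the sum
  have hsplit : ∑ n ∈ Finset.Icc x y, ind P n / n =
      ∑ n ∈ (Finset.Icc x y).filter (fun n => n ≤ A), ind P n / n +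
      ∑ n ∈ (Finset.Icc x y).filter (fun n => ¬ n ≤ A), ind P n / n :=
    (Finset.sum_filter_add_sum_filter_not _ _ _).symm
  have hfirst : ∑ n ∈ (Finset.Icc x y).filter (fun n => n ≤ A), ind P n / n ≤ A := by
    have h1 : ∑ n ∈ (Finset.Icc x y).filter (fun n => n ≤ A), ind P n / n ≤
        ∑ n ∈ (Finset.Icc x y).filter (fun n => n ≤ A), (1 : ℝ) := by
      apply Finset.sum_le_sum
      intro n hn
      rw [Finset.mem_filter, Finset.mem_Icc] at hn
      have hn1 : (1 : ℝ) ≤ n := by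
        exact_mod_cast le_trans hx hn.1.1
      rw [div_le_one (by linarith)]
      exact le_trans (ind_le_one P n) hn1
    have h2 : (((Finset.Icc x y).filter (fun n => n ≤ A)).card : ℝ) ≤ A := by
      have h3 : (Finset.Icc x y).filter (fun n => n ≤ A) ⊆ Finset.Icc 1 A := by
        intro n hn
        rw [Finset.mem_filter, Finset.mem_Icc] at hn
        rw [Finset.mem_Icc]
        exact ⟨le_trans hx hn.1.1, hn.2⟩
      have h4 := Finset.card_le_card h3
      rw [Nat.card_Icc] at h4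
      have h5 : ((Finset.Icc x y).filter (fun n => n ≤ A)).card ≤ A := by omega
      exact_mod_cast h5
    rw [Finset.sum_const, nsmul_eq_mul, mul_one] at h1
    exact le_trans h1 h2
  have hsecond : ∑ n ∈ (Finset.Icc x y).filter (fun n => ¬ n ≤ A), ind P n / n ≤
      ∑ u ∈ Finset.Icc x' y, ind P' u / u := by
    have h1 : ∑ n ∈ (Finset.Icc x y).filter (fun n => ¬ n ≤ A), ind P n / n ≤
        ∑ n ∈ (Finset.Icc x y).filter (fun n => ¬ n ≤ A),
          ind P' (n - A) / ((n - A : ℕ) : ℝ) := by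
      apply Finset.sum_le_sum
      intro n hn
      rw [Finset.mem_filter, Finset.mem_Icc] at hn
      have hnA : A < n := not_le.mp hn.2
      have hnA1 : 1 ≤ n - A := by omega
      have h2 : (0 : ℝ) < ((n - A : ℕ) : ℝ) := by exact_mod_cast hnA1
      have h3 : ((n - A : ℕ) : ℝ) ≤ n := by exact_mod_cast Nat.sub_le n A
      apply div_le_div₀ (ind_nonneg P' _) _ h2 h3
      exact ind_mono P P' n (n - A) (hP n hnA.le)
    refine le_trans h1 ?_
    rw [← Finset.sum_image (s := (Finset.Icc x y).filter (fun n => ¬ n ≤ A))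
      (g := fun n => n - A) (f := fun u : ℕ => ind P' u / (u : ℝ))]
    · apply Finset.sum_le_sum_of_subset_of_nonneg
      · intro u hu
        rw [Finset.mem_image] at hu
        obtain ⟨n, hn, rfl⟩ := hu
        rw [Finset.mem_filter, Finset.mem_Icc] at hn
        rw [Finset.mem_Icc]
        have hnA : A < n := not_le.mp hn.2
        constructor
        · rw [hx']
          apply max_le
          · omega
          · omega
        · omega
      · intro u _ _
        exact div_nonneg (ind_nonneg P' u) (Nat.cast_nonneg u)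
    · intro n hn m hm hnm
      rw [Finset.mem_coe, Finset.mem_filter] at hn hm
      have h5 : n - A = m - A := hnm
      have h6 : A < n := not_le.mp hn.2
      have h7 : A < m := not_le.mp hm.2
      omega
  rw [hsplit]
  have h6 : δ / 2 * Real.log ((y : ℝ) / x') ≤
      δ / 2 * (Real.log ((y : ℝ) / x) + Real.log ((A : ℝ) + 1)) :=
    mul_le_mul_of_nonneg_left hlog2 (by linarith)
  have h7 : δ / 2 * (2 * A / δ + Real.log ((A : ℝ) + 1)) ≤ δ / 2 * Real.log ((y : ℝ) / x) :=
    mul_le_mul_of_nonneg_left hlog (by linarith)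
  have h8 : δ / 2 * (2 * A / δ) = A := by
    field_simp
  have h9 : δ / 2 * (2 * A / δ + Real.log ((A : ℝ) + 1)) =
      A + δ / 2 * Real.log ((A : ℝ) + 1) := by
    rw [mul_add, h8]
  rw [h9] at h7
  linarith

/-- Core lemma with fixed `κ`: the bound for all natural shifts gives it for integer shifts. -/
theorem tlz_core (S : Finset ℤ) (Q c : ℕ) (κ δ : ℝ) (hδ : 0 < δ) (hQ : 0 < Q)
    (H : ∀ β : Fin S.card → ℕ, Function.Injective β → ∃ h₀ : ℕ, ∀ h, h₀ ≤ h →
      Bd (ind (Bad (fun y => ∏ i, lam (y + β i)) κ Q c h)) (δ / 2)) :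
    ∃ h₀ : ℕ, ∀ h, h₀ ≤ h → Bd (ind (Bad (gs S) (min κ 1) Q c h)) δ := by
  obtain ⟨a, ha⟩ : ∃ a : ℕ, a = ∑ s ∈ S, s.natAbs + 1 := ⟨_, rfl⟩
  have hsa : ∀ s ∈ S, s.natAbs < Q * a := by
    intro s hs
    have h1 : s.natAbs ≤ ∑ s ∈ S, s.natAbs :=
      Finset.single_le_sum (f := fun s : ℤ => s.natAbs) (fun _ _ => Nat.zero_le _) hs
    have h2 : 1 * a ≤ Q * a := Nat.mul_le_mul_right a hQ
    omega
  obtain ⟨e⟩ : Nonempty (Fin S.card ≃ S) := ⟨S.equivFin.symm⟩
  obtain ⟨β, hβ⟩ : ∃ β : Fin S.card → ℕ, ∀ i, β i = ((e i : ℤ) + (Q * a : ℕ)).toNat :=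
    ⟨_, fun _ => rfl⟩
  have hβZ : ∀ i, (β i : ℤ) = (e i : ℤ) + (Q * a : ℕ) := by
    intro i
    rw [hβ i]
    apply Int.toNat_of_nonneg
    have := hsa (e i) (e i).2
    omega
  have hinj : Function.Injective β := by
    intro i j hij
    have h1 : (β i : ℤ) = β j := by rw [hij]
    rw [hβZ, hβZ] at h1
    have h2 : (e i : ℤ) = (e j : ℤ) := by linarith
    exact e.injective (Subtype.ext h2)
  obtain ⟨h₀, hh₀⟩ := H β hinj
  refine ⟨h₀, ?_⟩
  intro h hh
  have hf : ∀ u : ℕ, gs S (u + Q * a) = (fun y : ℕ => ∏ i, lam (y + β i)) u := by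
    intro u
    show ∏ s ∈ S, lam (((u + Q * a : ℕ) : ℤ) + s).toNat = ∏ i, lam (u + β i)
    rw [← Finset.prod_coe_sort S (fun s : ℤ => lam (((u + Q * a : ℕ) : ℤ) + s).toNat)]
    rw [← e.prod_comp]
    apply Finset.prod_congr rfl
    intro i _
    congr 1
    have h1 := hβZ i
    have h2 : ((u + β i : ℕ) : ℤ) = ((u + Q * a : ℕ) : ℤ) + (e i : ℤ) := by
      push_cast at h1 ⊢
      linarith
    rw [← h2]
    exact Int.toNat_natCast _
  apply bd_shift _ _ (Q * a) δ hδ _ (hh₀ h hh)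
  intro n hn hbad
  unfold Bad at hbad ⊢
  rw [ws_shift S _ Q a c n h hf hn] at hbad
  refine lt_of_le_of_lt ?_ hbad
  apply mul_le_mul_of_nonneg_right _ (Nat.cast_nonneg h)
  have := min_le_left κ 1
  linarith

theorem tlz (h : T_TL) : T_TLZ := by
  intro k δ hδ
  obtain ⟨κ, hκ, H⟩ := h k (δ / 2) (by linarith)
  refine ⟨min κ 1, lt_min hκ one_pos, min_le_right _ _, ?_⟩
  intro S Q c hS hSk hQ hQe
  exact tlz_core S Q c κ δ hδ hQ
    (fun β hβ => H S.card β Q c (Finset.card_pos.mpr hS) hSk hQ hQe hβ)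

end Pool.Agent.H1.MCL
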