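import Pool.Agent.H28.MCL.TargetsU
import Pool.Agent.H1.MCL.TLZ

/-!
Module ZCO of the project MCL: the local gap for a fixed set of integer shifts and a fixed constant.
-/

set_option autoImplicit false

open Finset Filter Topology

namespace Pool.Agent.H1.MCL

open Pool.Agent.H24.MR (lam)
open Pool.Agent.H28.MCL

theorem zco : T_ZCO := by
  intro δ κ S Q a hδ _ hκ1 hS hQ H
  have h1 := tlz_core S Q a κ δ hδ hQ (fun β hβ => H S.card β (Finset.card_pos.mpr hS) hβ)
  rw [min_eq_left hκ1] at h1
  exact h1

end Pool.Agent.H1.MCL
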